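import Mathlib

/-!
Partition of the points outside a subsystem of a Steiner triple system into triples, from a group of automorphisms
which is transitive on these points and whose point stabilisers normalise a Sylow 3-subgroup.
-/

set_option autoImplicit false

namespace Pool.Agent.H83.STSm

open Finset Pointwise

variable {V : Type*} [Fintype V] [DecidableEq V]

/-- `S` is the set of triples of a Steiner triple system on the finite set `V`. -/
structure IsSTS (S : Finset (Finset V)) : Prop where
  three : ∀ T ∈ S, T.card = 3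
  pair : ∀ x y : V, x ≠ y → ∃! T : Finset V, T ∈ S ∧ x ∈ T ∧ y ∈ T

/-- `W` is (the point set of) a subsystem: a triple with two points in `W` lies in `W`. -/
def Subsystem (S : Finset (Finset V)) (W : Finset V) : Prop :=
  ∀ T ∈ S, ∀ x ∈ T, ∀ y ∈ T, x ≠ y → x ∈ W → y ∈ W → T ⊆ W

theorem sum_pairs {S : Finset (Finset V)} (hS : IsSTS S) (R : Finset (V × V)) (hR : ∀ p ∈ R, p.1 ≠ p.2) :
    ∑ T ∈ S, (R.filter fun p => p.1 ∈ T ∧ p.2 ∈ T).card = R.card := by
  simp_rw [Finset.card_filter]
  rw [Finset.sum_comm, Finset.card_eq_sum_ones]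
  refine Finset.sum_congr rfl fun p hp => ?_
  rw [← Finset.card_filter, Finset.card_eq_one]
  obtain ⟨T, hT, hu⟩ := hS.pair p.1 p.2 (hR p hp)
  refine ⟨T, ?_⟩
  ext T'
  simp only [Finset.mem_filter, Finset.mem_singleton]
  constructor
  · rintro ⟨h1, h2⟩
    exact hu T' ⟨h1, h2.1, h2.2⟩
  · rintro rfl
    exact ⟨hT.1, hT.2⟩

/-- The number of triples outside a subsystem. -/
theorem count_outside {S : Finset (Finset V)} (hS : IsSTS S) {W : Finset V} (hW : Subsystem S W) :
    6 * (S.filter fun T => T ⊆ Wᶜ).card + W.card * (Wᶜ).card + (Wᶜ).card = (Wᶜ).card * (Wᶜ).card := by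
  classical
  have h1 := sum_pairs hS (Wᶜ).offDiag (by
    intro p hp
    exact (Finset.mem_offDiag.1 hp).2.2)
  have h2 := sum_pairs hS (W ×ˢ Wᶜ) (by
    intro p hp h
    have := Finset.mem_product.1 hp
    rw [h] at this
    exact (Finset.mem_compl.1 this.2) this.1)
  have e : ∀ T ∈ S, ((Wᶜ).offDiag.filter fun p => p.1 ∈ T ∧ p.2 ∈ T).card =
      6 * (if T ⊆ Wᶜ then 1 else 0) + ((W ×ˢ Wᶜ).filter fun p => p.1 ∈ T ∧ p.2 ∈ T).card := by
    intro T hT
    have a1 : ((Wᶜ).offDiag.filter fun p => p.1 ∈ T ∧ p.2 ∈ T) = (T ∩ Wᶜ).offDiag := by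
      ext p
      simp only [Finset.mem_filter, Finset.mem_offDiag, Finset.mem_inter]
      tauto
    have a2 : ((W ×ˢ Wᶜ).filter fun p => p.1 ∈ T ∧ p.2 ∈ T) = (T ∩ W) ×ˢ (T ∩ Wᶜ) := by
      ext p
      simp only [Finset.mem_filter, Finset.mem_product, Finset.mem_inter]
      tauto
    rw [a1, a2, Finset.offDiag_card, Finset.card_product]
    have h3 : (T ∩ W).card + (T ∩ Wᶜ).card = 3 := by
      rw [← hS.three T hT, ← Finset.card_union_of_disjoint]
      · congr 1
        ext x
        simp only [Finset.mem_union, Finset.mem_inter, Finset.mem_compl]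
        tauto
      · rw [Finset.disjoint_left]
        intro x hx hx'
        exact (Finset.mem_compl.1 (Finset.mem_inter.1 hx').2) (Finset.mem_inter.1 hx).2
    have h4 : T ⊆ Wᶜ ↔ (T ∩ W).card = 0 := by
      rw [Finset.card_eq_zero]
      constructor
      · intro h
        ext x
        simp only [Finset.mem_inter, Finset.notMem_empty, iff_false, not_and]
        intro hx hx'
        exact (Finset.mem_compl.1 (h hx)) hx'
      · intro h x hx
        rw [Finset.mem_compl]
        intro hx'
        have : x ∈ T ∩ W := Finset.mem_inter.2 ⟨hx, hx'⟩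
        rw [h] at this
        exact absurd this (Finset.notMem_empty x)
    have h5 : (T ∩ W).card ≠ 2 := by
      intro h
      obtain ⟨x, y, hxy, hE⟩ := Finset.card_eq_two.1 h
      have hx : x ∈ T ∩ W := by rw [hE]; simp
      have hy : y ∈ T ∩ W := by rw [hE]; simp
      have hs := hW T hT x (Finset.mem_inter.1 hx).1 y (Finset.mem_inter.1 hy).1 hxy
        (Finset.mem_inter.1 hx).2 (Finset.mem_inter.1 hy).2
      have : T ∩ W = T := Finset.inter_eq_left.2 hs
      rw [this, hS.three T hT] at h
      omega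
    have h6 : (T ∩ W).card ≤ 3 := by omega
    have h7 : (T ∩ Wᶜ).card = 3 - (T ∩ W).card := by omega
    rw [h7]
    generalize hk : (T ∩ W).card = k at *
    interval_cases k
    · rw [if_pos (h4.2 rfl)]
    · rw [if_neg (fun h => by have := h4.1 h; omega)]
    · omega
    · rw [if_neg (fun h => by have := h4.1 h; omega)]
  rw [Finset.sum_congr rfl e, Finset.sum_add_distrib, h2, ← Finset.mul_sum, ← Finset.card_filter,
    Finset.offDiag_card, Finset.card_product] at h1
  have h8 : (Wᶜ).card ≤ (Wᶜ).card * (Wᶜ).card := Nat.le_mul_self _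
  omega

variable {G : Type*} [Group G] [Finite G] [MulAction G V]

theorem pow_dvd_orbit (P : Sylow 3 G) (x : V) (a : ℕ) (h : 3 ^ a ∣ Nat.card (MulAction.orbit G x)) :
    3 ^ a ∣ Nat.card (MulAction.orbit P x) := by
  haveI : Fact (Nat.Prime 3) := ⟨Nat.prime_three⟩
  have e1 : Nat.card (MulAction.orbit G x) * Nat.card (MulAction.stabilizer G x) = Nat.card G := by
    rw [mul_comm, ← Subgroup.card_mul_index (MulAction.stabilizer G x), MulAction.index_stabilizer]
    rfl
  have e2 : Nat.card (MulAction.orbit P x) * Nat.card (MulAction.stabilizer P x) = Nat.card P := by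
    rw [mul_comm, ← Subgroup.card_mul_index (MulAction.stabilizer P x), MulAction.index_stabilizer]
    rfl
  obtain ⟨f, hf⟩ : ∃ f, Nat.card (MulAction.stabilizer P x) = 3 ^ f :=
    IsPGroup.iff_card.1 (P.isPGroup'.to_subgroup _)
  have e3 : Nat.card (MulAction.stabilizer P x) ∣ Nat.card (MulAction.stabilizer G x) := by
    have : (MulAction.stabilizer P x).map (P : Subgroup G).subtype ≤ MulAction.stabilizer G x := by
      rintro _ ⟨q, hq, rfl⟩
      exact hq
    have h2 := Subgroup.card_dvd_of_le this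
    rwa [Subgroup.card_map_of_injective (Subgroup.subtype_injective _)] at h2
  have e4 : 3 ^ (a + f) ∣ Nat.card G := by
    rw [← e1, pow_add, ← hf]
    exact Nat.mul_dvd_mul h e3
  have e5 : 3 ^ (a + f) ∣ Nat.card P := P.pow_dvd_card_of_pow_dvd_card e4
  rw [← e2, hf, pow_add] at e5
  exact Nat.dvd_of_mul_dvd_mul_right (by positivity) e5

theorem dvd_card_of_closed {H Y : Type*} [Group H] [MulAction H Y] [DecidableEq Y] (d : ℕ) :
    ∀ (k : ℕ) (A : Finset Y), A.card = k → (∀ h : H, ∀ y ∈ A, h • y ∈ A) →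
      (∀ y ∈ A, d ∣ Nat.card (MulAction.orbit H y)) → d ∣ A.card := by
  classical
  intro k
  induction k using Nat.strong_induction_on with
  | _ k ih =>
    intro A hk hcl hd
    rcases A.eq_empty_or_nonempty with rfl | ⟨y, hy⟩
    · simp
    · have hO : MulAction.orbit H y ⊆ (A : Set Y) := by
        rintro _ ⟨h, rfl⟩
        exact hcl h y hy
      have hfin : (MulAction.orbit H y).Finite := A.finite_toSet.subset hO
      have hsplit : A.card = (A.filter fun z => z ∉ MulAction.orbit H y).card +
          Nat.card (MulAction.orbit H y) := by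
        rw [← Finset.card_filter_add_card_filter_not (s := A) (fun z => z ∉ MulAction.orbit H y)]
        congr 1
        have : (A.filter fun z => ¬ z ∉ MulAction.orbit H y) = hfin.toFinset := by
          ext z
          simp only [Finset.mem_filter, not_not, Set.Finite.mem_toFinset]
          exact ⟨fun h => h.2, fun h => ⟨hO h, h⟩⟩
        rw [this, ← Set.ncard_eq_toFinset_card _ hfin]
        rfl
      have hpos : 0 < Nat.card (MulAction.orbit H y) := by
        haveI := hfin.to_subtype
        haveI : Nonempty (MulAction.orbit H y) := ⟨⟨y, MulAction.mem_orbit_self y⟩⟩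
        exact Nat.card_pos
      have h1 := ih (A.filter fun z => z ∉ MulAction.orbit H y).card (by omega)
        (A.filter fun z => z ∉ MulAction.orbit H y) rfl (by
          intro h z hz
          rw [Finset.mem_filter] at hz ⊢
          refine ⟨hcl h z hz.1, fun h' => hz.2 ?_⟩
          obtain ⟨g, hg⟩ := h'
          refine ⟨h⁻¹ * g, ?_⟩
          change (h⁻¹ * g) • y = z
          rw [mul_smul]
          have : g • y = h • z := hg
          rw [this, inv_smul_smul]) (by
          intro z hz
          exact hd z (Finset.mem_filter.1 hz).1)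
      rw [hsplit]
      exact dvd_add h1 (hd y hy)

theorem pairwiseDisjoint_of_card (O : Finset (Finset V)) (h3 : ∀ T ∈ O, T.card = 3)
    (h : 3 * O.card ≤ (O.biUnion id).card) : (O : Set (Finset V)).PairwiseDisjoint id := by
  intro T hT T' hT' hne
  by_contra hd
  simp only [Function.onFun, id] at hd
  rw [Finset.not_disjoint_iff] at hd
  obtain ⟨x, hx, hx'⟩ := hd
  have hT0 : T ∈ O := hT
  have hT0' : T' ∈ O := hT'
  have e1 : O.biUnion id = T ∪ (O.erase T).biUnion id := by
    conv_lhs => rw [← Finset.insert_erase hT0]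
    rw [Finset.biUnion_insert]
    rfl
  have e2 : ((O.erase T).biUnion id).card ≤ (O.erase T).card * 3 := by
    apply Finset.card_biUnion_le_card_mul
    intro U hU
    exact (h3 U (Finset.mem_of_mem_erase hU)).le
  have e3 : (T ∩ (O.erase T).biUnion id).Nonempty := by
    refine ⟨x, Finset.mem_inter.2 ⟨hx, ?_⟩⟩
    rw [Finset.mem_biUnion]
    exact ⟨T', Finset.mem_erase.2 ⟨fun h => hne h.symm, hT0'⟩, hx'⟩
  have e4 := Finset.card_union_add_card_inter T ((O.erase T).biUnion id)
  have e5 := e3.card_pos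
  have e6 := Finset.card_erase_add_one hT0
  have e7 := h3 T hT0
  rw [e1] at h
  omega

/-- A triple system orbit of a Sylow 3-subgroup which fills one orbit of points. -/
theorem exists_block_orbit {S : Finset (Finset V)} (hS : IsSTS S) (hG : ∀ g : G, ∀ T ∈ S, g • T ∈ S)
    {W : Finset V} (hGW : ∀ g : G, ∀ x ∈ W, g • x ∈ W) (P : Sylow 3 G) (a : ℕ)
    (ha : ∀ x, x ∉ W → 3 ^ a ∣ Nat.card (MulAction.orbit G x))
    (hb : ¬ 3 ^ a ∣ (S.filter fun T => T ⊆ Wᶜ).card) :
    ∃ (O : Finset (Finset V)) (x : V), x ∉ W ∧ O ⊆ S ∧ (O : Set (Finset V)).PairwiseDisjoint id ∧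
      ∀ z, z ∈ O.biUnion id ↔ ∃ p : P, p • x = z := by
  classical
  have : Fact (Nat.Prime 3) := ⟨Nat.prime_three⟩
  have hGW' : ∀ g : G, ∀ x, x ∉ W → g • x ∉ W := by
    intro g x hx h
    apply hx
    have := hGW g⁻¹ _ h
    rwa [inv_smul_smul] at this
  have hcl : ∀ p : P, ∀ T ∈ S.filter (fun T => T ⊆ Wᶜ), p • T ∈ S.filter (fun T => T ⊆ Wᶜ) := by
    intro p T hT
    rw [Finset.mem_filter] at hT ⊢
    refine ⟨hG (p : G) T hT.1, ?_⟩
    intro z hz
    obtain ⟨y, hy, rfl⟩ := Finset.mem_smul_finset.1 hz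
    exact Finset.mem_compl.2 (hGW' (p : G) y (Finset.mem_compl.1 (hT.2 hy)))
  obtain ⟨B, hB, hnd⟩ : ∃ B ∈ S.filter (fun T => T ⊆ Wᶜ), ¬ 3 ^ a ∣ Nat.card (MulAction.orbit P B) := by
    by_contra hcon
    push Not at hcon
    exact hb (dvd_card_of_closed (H := P) (3 ^ a) _ _ rfl hcl hcon)
  rw [Finset.mem_filter] at hB
  obtain ⟨j, hj⟩ := P.isPGroup'.card_orbit B
  have hja : j < a := by
    by_contra h
    exact hnd (hj ▸ pow_dvd_pow 3 (not_lt.1 h))
  have hfin : (MulAction.orbit P B).Finite := Set.toFinite _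
  set O : Finset (Finset V) := hfin.toFinset with hO
  have hOmem : ∀ T, T ∈ O ↔ ∃ p : P, p • B = T := by
    intro T
    rw [hO, Set.Finite.mem_toFinset]
    exact Iff.rfl
  have hOcard : O.card = 3 ^ j := by
    rw [← hj, hO, ← Set.ncard_eq_toFinset_card _ hfin]
    rfl
  have hOS : O ⊆ S := by
    intro T hT
    obtain ⟨p, rfl⟩ := (hOmem T).1 hT
    exact hG (p : G) B hB.1
  have hB3 := hS.three B hB.1
  obtain ⟨x, hx⟩ : B.Nonempty := by
    rw [← Finset.card_pos, hB3]; norm_num
  have hxW : x ∉ W := Finset.mem_compl.1 (hB.2 hx)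
  have hsub : ∀ z, (∃ p : P, p • x = z) → z ∈ O.biUnion id := by
    rintro z ⟨p, rfl⟩
    rw [Finset.mem_biUnion]
    exact ⟨p • B, (hOmem _).2 ⟨p, rfl⟩, Finset.smul_mem_smul_finset hx⟩
  have hfinx : (MulAction.orbit P x).Finite := Set.toFinite _
  have hsub' : hfinx.toFinset ⊆ O.biUnion id := by
    intro z hz
    rw [Set.Finite.mem_toFinset] at hz
    exact hsub z hz
  have hc1 : 3 ^ a ≤ hfinx.toFinset.card := by
    have h1 := pow_dvd_orbit P x a (ha x hxW)
    have h2 : Nat.card (MulAction.orbit P x) = hfinx.toFinset.card := by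
      rw [← Set.ncard_eq_toFinset_card _ hfinx]
      rfl
    rw [h2] at h1
    refine Nat.le_of_dvd ?_ h1
    rw [Finset.card_pos]
    exact ⟨x, by rw [Set.Finite.mem_toFinset]; exact MulAction.mem_orbit_self x⟩
  have hc2 := Finset.card_le_card hsub'
  have hc3 : (O.biUnion id).card ≤ O.card * 3 := by
    apply Finset.card_biUnion_le_card_mul
    intro U hU
    exact (hS.three U (hOS hU)).le
  have hc4 : 3 ^ (j + 1) ≤ 3 ^ a := Nat.pow_le_pow_right (by norm_num) hja
  have hc5 : O.card * 3 = 3 ^ (j + 1) := by rw [hOcard, pow_succ]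
  refine ⟨O, x, hxW, hOS, pairwiseDisjoint_of_card O (fun T hT => hS.three T (hOS hT)) (by omega), ?_⟩
  intro z
  refine ⟨fun hz => ?_, hsub z⟩
  have he : hfinx.toFinset = O.biUnion id := Finset.eq_of_subset_of_card_le hsub' (by omega)
  rw [← he, Set.Finite.mem_toFinset] at hz
  exact hz

/-- The translates of one filled orbit cut the whole orbit of `G` into triples. -/
theorem exists_partition {S : Finset (Finset V)} (hG : ∀ g : G, ∀ T ∈ S, g • T ∈ S)
    {W : Finset V} (htr : ∀ x, x ∉ W → ∀ y, y ∉ W → ∃ g : G, g • x = y) (P : Sylow 3 G)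
    (hP : ∀ x, x ∉ W → ∀ g : G, g • x = x → g ∈ Subgroup.normalizer ((P : Subgroup G) : Set G))
    (O : Finset (Finset V)) (x : V) (hxW : x ∉ W) (hOS : O ⊆ S)
    (hOd : (O : Set (Finset V)).PairwiseDisjoint id)
    (hOx : ∀ z, z ∈ O.biUnion id ↔ ∃ p : P, p • x = z) :
    ∀ (k : ℕ) (Z : Finset V), Z.card = k → Z ⊆ Wᶜ →
      (∀ g : G, ∀ y ∈ O.biUnion id, g • y ∈ Z → ∀ z ∈ O.biUnion id, g • z ∈ Z) →
      ∃ M ⊆ S, (M : Set (Finset V)).PairwiseDisjoint id ∧ M.biUnion id = Z := by
  classical
  intro k
  induction k using Nat.strong_induction_on with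
  | _ k ih =>
    intro Z hk hZW hcl
    rcases Z.eq_empty_or_nonempty with rfl | ⟨y, hy⟩
    · exact ⟨∅, by simp, by simp, by simp⟩
    · obtain ⟨g, hg⟩ := htr x hxW y (Finset.mem_compl.1 (hZW hy))
      set U := O.biUnion id with hU
      have hxU : x ∈ U := (hOx x).2 ⟨1, one_smul _ x⟩
      have hgU : g • U ⊆ Z := by
        intro z hz
        obtain ⟨u, hu, rfl⟩ := Finset.mem_smul_finset.1 hz
        exact hcl g x hxU (by rw [hg]; exact hy) u hu
      have hyU : y ∈ g • U := by
        rw [← hg]
        exact Finset.smul_mem_smul_finset hxU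
      have hlt : (Z \ (g • U)).card < k := by
        rw [← hk]
        apply Finset.card_lt_card
        refine ⟨Finset.sdiff_subset, fun h => ?_⟩
        exact (Finset.mem_sdiff.1 (h hy)).2 hyU
      obtain ⟨M, hMS, hMd, hMU⟩ := ih _ hlt (Z \ (g • U)) rfl (Finset.sdiff_subset.trans hZW) (by
        intro h y' hy' hhy z' hz'
        rw [Finset.mem_sdiff] at hhy ⊢
        refine ⟨hcl h y' hy' hhy.1 z' hz', fun hcon => hhy.2 ?_⟩
        obtain ⟨u, hu, hu'⟩ := Finset.mem_smul_finset.1 hcon
        obtain ⟨q, rfl⟩ := (hOx _).1 hz'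
        obtain ⟨q', rfl⟩ := (hOx _).1 hu
        obtain ⟨r, rfl⟩ := (hOx _).1 hy'
        have hs : ((h * (q : G))⁻¹ * (g * (q' : G))) • x = x := by
          rw [mul_smul, inv_smul_eq_iff, mul_smul, mul_smul]
          exact hu'
        have hn := hP x hxW _ hs
        set s : G := (h * (q : G))⁻¹ * (g * (q' : G)) with hsdef
        have hn' : s⁻¹ ∈ Subgroup.normalizer ((P : Subgroup G) : Set G) := inv_mem hn
        have hr : s⁻¹ * (((q⁻¹ * r : P) : G)) * s ∈ (P : Subgroup G) := by
          have := (Subgroup.mem_normalizer_iff.1 hn' ((q⁻¹ * r : P) : G)).1 (q⁻¹ * r : P).2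
          rwa [inv_inv] at this
        have hsx : s⁻¹ • x = x := by
          rw [inv_smul_eq_iff]; exact hs.symm
        have key : h • (r : G) • x = g • ((q' : G) * (s⁻¹ * (((q⁻¹ * r : P) : G)) * s)) • x := by
          have e1 : h * (r : G) = g * ((q' : G) * (s⁻¹ * (((q⁻¹ * r : P) : G)) * s)) * s⁻¹ := by
            rw [hsdef]
            push_cast
            group
          rw [← mul_smul, e1, mul_smul, hsx, mul_smul]
        have key2 : h • (r • x) = g • ((q' * ⟨_, hr⟩ : P) • x) := key
        rw [key2]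
        exact Finset.smul_mem_smul_finset ((hOx _).2 ⟨_, rfl⟩))
      refine ⟨M ∪ O.image (fun T => g • T), ?_, ?_, ?_⟩
      · intro T hT
        rcases Finset.mem_union.1 hT with h | h
        · exact hMS h
        · obtain ⟨T', hT', rfl⟩ := Finset.mem_image.1 h
          exact hG g T' (hOS hT')
      · have hcross : ∀ T ∈ M, ∀ T' ∈ O, Disjoint T (g • T') := by
          intro T hT T' hT'
          rw [Finset.disjoint_left]
          intro z hz hz'
          have h1 : z ∈ M.biUnion id := Finset.mem_biUnion.2 ⟨T, hT, hz⟩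
          rw [hMU] at h1
          apply (Finset.mem_sdiff.1 h1).2
          obtain ⟨u, hu, rfl⟩ := Finset.mem_smul_finset.1 hz'
          exact Finset.smul_mem_smul_finset (Finset.mem_biUnion.2 ⟨T', hT', hu⟩)
        intro T hT T' hT' hne
        rw [Finset.mem_coe] at hT hT'
        rcases Finset.mem_union.1 hT with h | h <;> rcases Finset.mem_union.1 hT' with h' | h'
        · exact hMd h h' hne
        · obtain ⟨T2, hT2, rfl⟩ := Finset.mem_image.1 h'
          exact hcross T h T2 hT2
        · obtain ⟨T2, hT2, rfl⟩ := Finset.mem_image.1 h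
          exact (hcross T' h' T2 hT2).symm
        · obtain ⟨T1, hT1, rfl⟩ := Finset.mem_image.1 h
          obtain ⟨T2, hT2, rfl⟩ := Finset.mem_image.1 h'
          have hne' : T1 ≠ T2 := fun h => hne (by rw [h])
          have hd := hOd hT1 hT2 hne'
          simp only [Function.onFun, id] at hd ⊢
          rw [Finset.disjoint_left] at hd ⊢
          intro z hz hz'
          obtain ⟨u, hu, rfl⟩ := Finset.mem_smul_finset.1 hz
          obtain ⟨u', hu', he⟩ := Finset.mem_smul_finset.1 hz'
          have : u' = u := smul_left_cancel g he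
          rw [this] at hu'
          exact hd hu hu'
      · ext z
        rw [Finset.mem_biUnion]
        constructor
        · rintro ⟨T, hT, hz⟩
          rcases Finset.mem_union.1 hT with h | h
          · have h1 : z ∈ M.biUnion id := Finset.mem_biUnion.2 ⟨T, h, hz⟩
            rw [hMU] at h1
            exact (Finset.mem_sdiff.1 h1).1
          · obtain ⟨T', hT', rfl⟩ := Finset.mem_image.1 h
            obtain ⟨u, hu, rfl⟩ := Finset.mem_smul_finset.1 hz
            exact hgU (Finset.smul_mem_smul_finset (Finset.mem_biUnion.2 ⟨T', hT', hu⟩))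
        · intro hz
          by_cases h : z ∈ g • U
          · obtain ⟨u, hu, rfl⟩ := Finset.mem_smul_finset.1 h
            obtain ⟨T', hT', hu'⟩ := Finset.mem_biUnion.1 hu
            exact ⟨g • T', Finset.mem_union_right _ (Finset.mem_image_of_mem _ hT'),
              Finset.smul_mem_smul_finset hu'⟩
          · have h1 : z ∈ M.biUnion id := by
              rw [hMU]
              exact Finset.mem_sdiff.2 ⟨hz, h⟩
            obtain ⟨T, hT, hz'⟩ := Finset.mem_biUnion.1 h1
            exact ⟨T, Finset.mem_union_left _ hT, hz'⟩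

end Pool.Agent.H83.STSm
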