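import Mathlib
import Pool.Agent.H83.STS.Trans

/-!
Partition of the points outside an invariant set of a Steiner triple system into triples, each inside one orbit of a
group of automorphisms.
-/

set_option autoImplicit false

namespace Pool.Agent.H83.STSm

open Finset Pointwise

variable {V : Type*} [Fintype V] [DecidableEq V]

/-- Number of pairs inside `X`, sorted by the triples. -/
theorem count_in {S : Finset (Finset V)} (hS : IsSTS S) (X : Finset V) :
    6 * (S.filter fun T => T ⊆ X).card + 2 * (S.filter fun T => (T ∩ X).card = 2).card + X.card =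
      X.card * X.card := by
  classical
  have h1 := sum_pairs hS X.offDiag (by
    intro p hp
    exact (Finset.mem_offDiag.1 hp).2.2)
  have e : ∀ T ∈ S, (X.offDiag.filter fun p => p.1 ∈ T ∧ p.2 ∈ T).card =
      6 * (if T ⊆ X then 1 else 0) + 2 * (if (T ∩ X).card = 2 then 1 else 0) := by
    intro T hT
    have a1 : (X.offDiag.filter fun p => p.1 ∈ T ∧ p.2 ∈ T) = (T ∩ X).offDiag := by
      ext p
      simp only [Finset.mem_filter, Finset.mem_offDiag, Finset.mem_inter]
      tauto
    rw [a1, Finset.offDiag_card]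
    have h3 := hS.three T hT
    have h4 : T ⊆ X ↔ (T ∩ X).card = 3 := by
      constructor
      · intro h
        rw [Finset.inter_eq_left.2 h, h3]
      · intro h
        have : T ∩ X = T := Finset.eq_of_subset_of_card_le Finset.inter_subset_left (by omega)
        exact Finset.inter_eq_left.1 this
    have h6 : (T ∩ X).card ≤ 3 := by
      rw [← h3]; exact Finset.card_le_card Finset.inter_subset_left
    rw [if_congr h4 rfl rfl]
    generalize (T ∩ X).card = k at *
    interval_cases k <;> rfl
  rw [Finset.sum_congr rfl e, Finset.sum_add_distrib, ← Finset.mul_sum, ← Finset.mul_sum,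
    ← Finset.card_filter, ← Finset.card_filter, Finset.offDiag_card] at h1
  have h8 : X.card ≤ X.card * X.card := Nat.le_mul_self _
  omega

variable {G : Type*} [Group G] [MulAction G V]

/-- The triples through `x` with exactly two points in `X`: the number is constant on an orbit. -/
theorem count_two {S : Finset (Finset V)} (hG : ∀ g : G, ∀ T ∈ S, g • T ∈ S) (X : Finset V)
    (hX : ∀ g : G, ∀ x ∈ X, g • x ∈ X) (x : V) (htr : ∀ y ∈ X, ∃ g : G, g • x = y) :
    X.card * (S.filter fun T => x ∈ T ∧ (T ∩ X).card = 2).card =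
      2 * (S.filter fun T => (T ∩ X).card = 2).card := by
  classical
  have hgX : ∀ (g : G) (T : Finset V), ((g • T) ∩ X).card = (T ∩ X).card := by
    intro g T
    have : (g • T) ∩ X = g • (T ∩ X) := by
      ext z
      simp only [Finset.mem_inter, Finset.mem_smul_finset]
      constructor
      · rintro ⟨⟨y, hy, rfl⟩, hz⟩
        refine ⟨y, ⟨hy, ?_⟩, rfl⟩
        have := hX g⁻¹ _ hz
        rwa [inv_smul_smul] at this
      · rintro ⟨y, ⟨hy, hy'⟩, rfl⟩
        exact ⟨⟨y, hy, rfl⟩, hX g y hy'⟩
    rw [this, Finset.card_smul_finset]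
  have hle : ∀ (g : G) (y : V), (S.filter fun T => y ∈ T ∧ (T ∩ X).card = 2).card ≤
      (S.filter fun T => g • y ∈ T ∧ (T ∩ X).card = 2).card := by
    intro g y
    apply Finset.card_le_card_of_injOn (fun T => g • T)
    · intro T hT
      rw [Finset.mem_coe, Finset.mem_filter] at hT ⊢
      exact ⟨hG g T hT.1, Finset.smul_mem_smul_finset hT.2.1, by rw [hgX]; exact hT.2.2⟩
    · intro T _ T' _ h
      exact smul_left_cancel g h
  have hconst : ∀ y ∈ X, (S.filter fun T => y ∈ T ∧ (T ∩ X).card = 2).card =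
      (S.filter fun T => x ∈ T ∧ (T ∩ X).card = 2).card := by
    intro y hy
    obtain ⟨g, rfl⟩ := htr y hy
    refine le_antisymm ?_ (hle g x)
    have := hle g⁻¹ (g • x)
    rwa [inv_smul_smul] at this
  have h1 : ∑ y ∈ X, (S.filter fun T => y ∈ T ∧ (T ∩ X).card = 2).card =
      X.card * (S.filter fun T => x ∈ T ∧ (T ∩ X).card = 2).card := by
    rw [Finset.sum_congr rfl hconst, Finset.sum_const, smul_eq_mul]
  rw [← h1]
  have h2 : ∀ y ∈ X, (S.filter fun T => y ∈ T ∧ (T ∩ X).card = 2).card =
      ∑ T ∈ S.filter (fun T => (T ∩ X).card = 2), if y ∈ T then 1 else 0 := by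
    intro y _
    rw [← Finset.card_filter, Finset.filter_filter]
    congr 1
    ext T
    simp only [Finset.mem_filter]
    tauto
  rw [Finset.sum_congr rfl h2, Finset.sum_comm]
  have h3 : ∀ T ∈ S.filter (fun T => (T ∩ X).card = 2), (∑ y ∈ X, if y ∈ T then 1 else 0) = 2 := by
    intro T hT
    rw [← Finset.card_filter]
    have : (X.filter fun y => y ∈ T) = T ∩ X := by
      ext y
      simp only [Finset.mem_filter, Finset.mem_inter]
      tauto
    rw [this]
    exact (Finset.mem_filter.1 hT).2
  rw [Finset.sum_congr rfl h3, Finset.sum_const, smul_eq_mul, mul_comm]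

variable [Finite G]

/-- As `exists_block_orbit`, for an orbit `X` of `G`. -/
theorem exists_block_orbit' {S : Finset (Finset V)} (h3 : ∀ T ∈ S, T.card = 3)
    (hG : ∀ g : G, ∀ T ∈ S, g • T ∈ S) {X : Finset V} (hX : ∀ g : G, ∀ x ∈ X, g • x ∈ X)
    (P : Sylow 3 G) (a : ℕ) (ha : ∀ x ∈ X, 3 ^ a ∣ Nat.card (MulAction.orbit G x))
    (hb : ¬ 3 ^ a ∣ (S.filter fun T => T ⊆ X).card) :
    ∃ (O : Finset (Finset V)) (x : V), x ∈ X ∧ O ⊆ S ∧ (O : Set (Finset V)).PairwiseDisjoint id ∧
      (∀ z, z ∈ O.biUnion id ↔ ∃ p : P, p • x = z) ∧ Nat.card (MulAction.orbit P x) = 3 ^ a := by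
  classical
  have : Fact (Nat.Prime 3) := ⟨Nat.prime_three⟩
  have hcl : ∀ p : P, ∀ T ∈ S.filter (fun T => T ⊆ X), p • T ∈ S.filter (fun T => T ⊆ X) := by
    intro p T hT
    rw [Finset.mem_filter] at hT ⊢
    refine ⟨hG (p : G) T hT.1, ?_⟩
    intro z hz
    obtain ⟨y, hy, rfl⟩ := Finset.mem_smul_finset.1 hz
    exact hX (p : G) y (hT.2 hy)
  obtain ⟨B, hB, hnd⟩ : ∃ B ∈ S.filter (fun T => T ⊆ X), ¬ 3 ^ a ∣ Nat.card (MulAction.orbit P B) := by
    by_contra hcon
    push Not at hcon
    exact hb (dvd_card_of_closed (H := P) (3 ^ a) _ _ rfl hcl hcon)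
  rw [Finset.mem_filter] at hB
  obtain ⟨j, hj⟩ := P.isPGroup'.card_orbit B
  have hja : j < a := by
    by_contra h
    exact hnd (hj ▸ pow_dvd_pow 3 (not_lt.1 h))
  have hfin : (MulAction.orbit P B).Finite := Set.toFinite _
  set O : Finset (Finset V) := hfin.toFinset with hO
  have hOmem : ∀ T, T ∈ O ↔ ∃ p : P, p • B = T := by
    intro T
    rw [hO, Set.Finite.mem_toFinset]
    exact Iff.rfl
  have hOcard : O.card = 3 ^ j := by
    rw [← hj, hO, ← Set.ncard_eq_toFinset_card _ hfin]
    rfl
  have hOS : O ⊆ S := by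
    intro T hT
    obtain ⟨p, rfl⟩ := (hOmem T).1 hT
    exact hG (p : G) B hB.1
  have hB3 := h3 B hB.1
  obtain ⟨x, hx⟩ : B.Nonempty := by
    rw [← Finset.card_pos, hB3]; norm_num
  have hxX : x ∈ X := hB.2 hx
  have hsub : ∀ z, (∃ p : P, p • x = z) → z ∈ O.biUnion id := by
    rintro z ⟨p, rfl⟩
    rw [Finset.mem_biUnion]
    exact ⟨p • B, (hOmem _).2 ⟨p, rfl⟩, Finset.smul_mem_smul_finset hx⟩
  have hfinx : (MulAction.orbit P x).Finite := Set.toFinite _
  have hsub' : hfinx.toFinset ⊆ O.biUnion id := by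
    intro z hz
    rw [Set.Finite.mem_toFinset] at hz
    exact hsub z hz
  have h2 : Nat.card (MulAction.orbit P x) = hfinx.toFinset.card := by
    rw [← Set.ncard_eq_toFinset_card _ hfinx]
    rfl
  have hc1 : 3 ^ a ≤ hfinx.toFinset.card := by
    have h1 := pow_dvd_orbit P x a (ha x hxX)
    rw [h2] at h1
    refine Nat.le_of_dvd ?_ h1
    rw [Finset.card_pos]
    exact ⟨x, by rw [Set.Finite.mem_toFinset]; exact MulAction.mem_orbit_self x⟩
  have hc2 := Finset.card_le_card hsub'
  have hc3 : (O.biUnion id).card ≤ O.card * 3 := by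
    apply Finset.card_biUnion_le_card_mul
    intro U hU
    exact (h3 U (hOS hU)).le
  have hc4 : 3 ^ (j + 1) ≤ 3 ^ a := Nat.pow_le_pow_right (by norm_num) hja
  have hc5 : O.card * 3 = 3 ^ (j + 1) := by rw [hOcard, pow_succ]
  refine ⟨O, x, hxX, hOS, pairwiseDisjoint_of_card O (fun T hT => h3 T (hOS hT)) (by omega), ?_, ?_⟩
  · intro z
    refine ⟨fun hz => ?_, hsub z⟩
    have he : hfinx.toFinset = O.biUnion id := Finset.eq_of_subset_of_card_le hsub' (by omega)
    rw [← he, Set.Finite.mem_toFinset] at hz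
    exact hz
  · rw [h2]
    omega

omit [Finite G] in
/-- The translates of one filled orbit cut the whole orbit `X` of `G` into triples, if the stabiliser of `x` preserves
the `P`-orbit of `x`. -/
theorem exists_partition' {S : Finset (Finset V)} (hG : ∀ g : G, ∀ T ∈ S, g • T ∈ S)
    {X : Finset V} (P : Subgroup G) (O : Finset (Finset V)) (x : V)
    (htr : ∀ y ∈ X, ∃ g : G, g • x = y)
    (hP : ∀ g : G, g • x = x → ∀ p : P, ∃ q : P, g • (p • x) = q • x) (hOS : O ⊆ S)
    (hOd : (O : Set (Finset V)).PairwiseDisjoint id)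
    (hOx : ∀ z, z ∈ O.biUnion id ↔ ∃ p : P, p • x = z) :
    ∀ (k : ℕ) (Z : Finset V), Z.card = k → Z ⊆ X →
      (∀ g : G, ∀ y ∈ O.biUnion id, g • y ∈ Z → ∀ z ∈ O.biUnion id, g • z ∈ Z) →
      ∃ M ⊆ S, (M : Set (Finset V)).PairwiseDisjoint id ∧ M.biUnion id = Z := by
  classical
  intro k
  induction k using Nat.strong_induction_on with
  | _ k ih =>
    intro Z hk hZX hcl
    rcases Z.eq_empty_or_nonempty with rfl | ⟨y, hy⟩
    · exact ⟨∅, by simp, by simp, by simp⟩
    · obtain ⟨g, hg⟩ := htr y (hZX hy)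
      set U := O.biUnion id with hU
      have hxU : x ∈ U := (hOx x).2 ⟨1, one_smul _ x⟩
      have hgU : g • U ⊆ Z := by
        intro z hz
        obtain ⟨u, hu, rfl⟩ := Finset.mem_smul_finset.1 hz
        exact hcl g x hxU (by rw [hg]; exact hy) u hu
      have hyU : y ∈ g • U := by
        rw [← hg]
        exact Finset.smul_mem_smul_finset hxU
      have hlt : (Z \ (g • U)).card < k := by
        rw [← hk]
        apply Finset.card_lt_card
        refine ⟨Finset.sdiff_subset, fun h => ?_⟩
        exact (Finset.mem_sdiff.1 (h hy)).2 hyU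
      obtain ⟨M, hMS, hMd, hMU⟩ := ih _ hlt (Z \ (g • U)) rfl (Finset.sdiff_subset.trans hZX) (by
        intro h y' hy' hhy z' hz'
        rw [Finset.mem_sdiff] at hhy ⊢
        refine ⟨hcl h y' hy' hhy.1 z' hz', fun hcon => hhy.2 ?_⟩
        obtain ⟨u, hu, hu'⟩ := Finset.mem_smul_finset.1 hcon
        obtain ⟨q, rfl⟩ := (hOx _).1 hz'
        obtain ⟨q', rfl⟩ := (hOx _).1 hu
        obtain ⟨r, rfl⟩ := (hOx _).1 hy'
        have hs : ((h * (q : G))⁻¹ * (g * (q' : G))) • x = x := by
          rw [mul_smul, inv_smul_eq_iff, mul_smul, mul_smul]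
          exact hu'
        set s : G := (h * (q : G))⁻¹ * (g * (q' : G)) with hsdef
        have hsx : s⁻¹ • x = x := by
          rw [inv_smul_eq_iff]; exact hs.symm
        obtain ⟨q'', hq''⟩ := hP s⁻¹ hsx (q⁻¹ * r)
        have hq3 : s⁻¹ • (((q : G)⁻¹ * (r : G)) • x) = (q'' : G) • x := hq''
        have key : h • (r : G) • x = g • ((q' : G) * (q'' : G)) • x := by
          have e1 : h * (r : G) = g * (q' : G) * (s⁻¹ * ((q : G)⁻¹ * (r : G))) := by
            rw [hsdef]
            group
          rw [← mul_smul, e1, mul_smul, mul_smul s⁻¹, hq3, mul_smul, mul_smul]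
        have key2 : h • (r • x) = g • ((q' * q'' : P) • x) := key
        rw [key2]
        exact Finset.smul_mem_smul_finset ((hOx _).2 ⟨_, rfl⟩))
      refine ⟨M ∪ O.image (fun T => g • T), ?_, ?_, ?_⟩
      · intro T hT
        rcases Finset.mem_union.1 hT with h | h
        · exact hMS h
        · obtain ⟨T', hT', rfl⟩ := Finset.mem_image.1 h
          exact hG g T' (hOS hT')
      · have hcross : ∀ T ∈ M, ∀ T' ∈ O, Disjoint T (g • T') := by
          intro T hT T' hT'
          rw [Finset.disjoint_left]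
          intro z hz hz'
          have h1 : z ∈ M.biUnion id := Finset.mem_biUnion.2 ⟨T, hT, hz⟩
          rw [hMU] at h1
          apply (Finset.mem_sdiff.1 h1).2
          obtain ⟨u, hu, rfl⟩ := Finset.mem_smul_finset.1 hz'
          exact Finset.smul_mem_smul_finset (Finset.mem_biUnion.2 ⟨T', hT', hu⟩)
        intro T hT T' hT' hne
        rw [Finset.mem_coe] at hT hT'
        rcases Finset.mem_union.1 hT with h | h <;> rcases Finset.mem_union.1 hT' with h' | h'
        · exact hMd h h' hne
        · obtain ⟨T2, hT2, rfl⟩ := Finset.mem_image.1 h'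
          exact hcross T h T2 hT2
        · obtain ⟨T2, hT2, rfl⟩ := Finset.mem_image.1 h
          exact (hcross T' h' T2 hT2).symm
        · obtain ⟨T1, hT1, rfl⟩ := Finset.mem_image.1 h
          obtain ⟨T2, hT2, rfl⟩ := Finset.mem_image.1 h'
          have hne' : T1 ≠ T2 := fun h => hne (by rw [h])
          have hd := hOd hT1 hT2 hne'
          simp only [Function.onFun, id] at hd ⊢
          rw [Finset.disjoint_left] at hd ⊢
          intro z hz hz'
          obtain ⟨u, hu, rfl⟩ := Finset.mem_smul_finset.1 hz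
          obtain ⟨u', hu', he⟩ := Finset.mem_smul_finset.1 hz'
          have : u' = u := smul_left_cancel g he
          rw [this] at hu'
          exact hd hu hu'
      · ext z
        rw [Finset.mem_biUnion]
        constructor
        · rintro ⟨T, hT, hz⟩
          rcases Finset.mem_union.1 hT with h | h
          · have h1 : z ∈ M.biUnion id := Finset.mem_biUnion.2 ⟨T, h, hz⟩
            rw [hMU] at h1
            exact (Finset.mem_sdiff.1 h1).1
          · obtain ⟨T', hT', rfl⟩ := Finset.mem_image.1 h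
            obtain ⟨u, hu, rfl⟩ := Finset.mem_smul_finset.1 hz
            exact hgU (Finset.smul_mem_smul_finset (Finset.mem_biUnion.2 ⟨T', hT', hu⟩))
        · intro hz
          by_cases h : z ∈ g • U
          · obtain ⟨u, hu, rfl⟩ := Finset.mem_smul_finset.1 h
            obtain ⟨T', hT', hu'⟩ := Finset.mem_biUnion.1 hu
            exact ⟨g • T', Finset.mem_union_right _ (Finset.mem_image_of_mem _ hT'),
              Finset.smul_mem_smul_finset hu'⟩
          · have h1 : z ∈ M.biUnion id := by
              rw [hMU]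
              exact Finset.mem_sdiff.2 ⟨hz, h⟩
            obtain ⟨T, hT, hz'⟩ := Finset.mem_biUnion.1 h1
            exact ⟨T, Finset.mem_union_left _ hT, hz'⟩

end Pool.Agent.H83.STSm
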