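import Mathlib
import Pool.Agent.H83.STS.Orb

/-!
The local form: a subgroup `L` whose point stabilisers are 3-groups and whose orbits carry the full power of 3.
-/

set_option autoImplicit false

namespace Pool.Agent.H83.STSm

open Finset Pointwise

theorem card_orb_mul {H Y : Type*} [Group H] [MulAction H Y] (y : Y) :
    Nat.card (MulAction.orbit H y) * Nat.card (MulAction.stabilizer H y) = Nat.card H := by
  rw [mul_comm, ← Subgroup.card_mul_index (MulAction.stabilizer H y), MulAction.index_stabilizer]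
  rfl

theorem card_stab_dvd {H Y : Type*} [Group H] [MulAction H Y] (K : Subgroup H) (y : Y) :
    Nat.card (MulAction.stabilizer K y) ∣ Nat.card (MulAction.stabilizer H y) := by
  have : (MulAction.stabilizer K y).map K.subtype ≤ MulAction.stabilizer H y := by
    rintro _ ⟨q, hq, rfl⟩
    exact hq
  have h2 := Subgroup.card_dvd_of_le this
  rwa [Subgroup.card_map_of_injective (Subgroup.subtype_injective _)] at h2

theorem pow_arith (a k u v : ℕ) (h : 3 ^ (a + k) ∣ u * v) (hv : ¬ 3 ^ (k + 1) ∣ v) : 3 ^ a ∣ u := by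
  have hv0 : v ≠ 0 := by
    rintro rfl
    exact hv (dvd_zero _)
  obtain ⟨c, v', hv', hvv⟩ := Nat.exists_eq_pow_mul_and_not_dvd hv0 3 (by norm_num)
  have hck : c ≤ k := by
    by_contra hlt
    push Not at hlt
    exact hv (hvv ▸ Dvd.dvd.mul_right (pow_dvd_pow 3 hlt) v')
  have h1 : 3 ^ c * 3 ^ (a + k - c) ∣ 3 ^ c * (u * v') := by
    rw [← pow_add, show c + (a + k - c) = a + k by omega]
    have : 3 ^ c * (u * v') = u * v := by rw [hvv]; ring
    rwa [this]
  have h2 : 3 ^ (a + k - c) ∣ u * v' := Nat.dvd_of_mul_dvd_mul_left (by positivity) h1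
  have hcop : Nat.Coprime (3 ^ (a + k - c)) v' :=
    Nat.Coprime.pow_left _ ((Nat.Prime.coprime_iff_not_dvd Nat.prime_three).2 hv')
  exact (pow_dvd_pow 3 (by omega)).trans (hcop.dvd_of_dvd_mul_right h2)

variable {V : Type*} [Fintype V] [DecidableEq V] {G : Type*} [Group G] [Finite G] [MulAction G V]

/-- The orbit of a triple under `L` is a partition of an orbit of points of `L`. -/
theorem exists_block_orbit_L {S : Finset (Finset V)} (h3 : ∀ T ∈ S, T.card = 3)
    (hG : ∀ g : G, ∀ T ∈ S, g • T ∈ S) {X : Finset V} (hX : ∀ g : G, ∀ x ∈ X, g • x ∈ X)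
    (L : Subgroup G) (a : ℕ) (hL1 : ∀ y ∈ X, ∃ k, Nat.card (MulAction.stabilizer L y) = 3 ^ k)
    (hL2 : ∀ y ∈ X, 3 ^ a ∣ Nat.card (MulAction.orbit L y))
    (hb : ¬ 3 ^ a ∣ (S.filter fun T => T ⊆ X).card) :
    ∃ (O : Finset (Finset V)) (x : V), x ∈ X ∧ O ⊆ S ∧ (O : Set (Finset V)).PairwiseDisjoint id ∧
      (∀ z, z ∈ O.biUnion id ↔ ∃ p : L, p • x = z) ∧ ¬ 3 ^ (a + 1) ∣ Nat.card (MulAction.orbit L x) := by
  classical
  have hcl : ∀ p : L, ∀ T ∈ S.filter (fun T => T ⊆ X), p • T ∈ S.filter (fun T => T ⊆ X) := by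
    intro p T hT
    rw [Finset.mem_filter] at hT ⊢
    refine ⟨hG (p : G) T hT.1, ?_⟩
    intro z hz
    obtain ⟨y, hy, rfl⟩ := Finset.mem_smul_finset.1 hz
    exact hX (p : G) y (hT.2 hy)
  obtain ⟨T, hT, hnd⟩ : ∃ B ∈ S.filter (fun T => T ⊆ X), ¬ 3 ^ a ∣ Nat.card (MulAction.orbit L B) := by
    by_contra hcon
    push Not at hcon
    exact hb (dvd_card_of_closed (H := L) (3 ^ a) _ _ rfl hcl hcon)
  rw [Finset.mem_filter] at hT
  have hT3 := h3 T hT.1
  -- the stabiliser of the triple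
  have key : ∀ y ∈ T, (∀ y' ∈ T, ∃ s : L, s • T = T ∧ s • y = y') ∧ (∀ l : L, l • y = y → l • T = T) ∧
      Nat.card (MulAction.orbit L y) = 3 * Nat.card (MulAction.orbit L T) := by
    intro y hy
    have hyX : y ∈ X := hT.2 hy
    obtain ⟨k, hk⟩ := hL1 y hyX
    have e1 := card_orb_mul (H := L) y
    have e2 := card_orb_mul (H := L) T
    have e3 : 3 ^ (a + k) ∣ Nat.card (MulAction.orbit L T) * Nat.card (MulAction.stabilizer L T) := by
      rw [e2, ← e1, hk, pow_add]
      exact Nat.mul_dvd_mul (hL2 y hyX) dvd_rfl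
    have e4 : 3 ^ (k + 1) ∣ Nat.card (MulAction.stabilizer L T) := by
      by_contra hcon
      exact hnd (pow_arith a k _ _ e3 hcon)
    set K := MulAction.stabilizer L T with hK
    have e5 := card_orb_mul (H := K) y
    have e6 := card_stab_dvd K y
    rw [hk] at e6
    obtain ⟨c, hck, hc⟩ := (Nat.dvd_prime_pow Nat.prime_three).1 e6
    have hsub : MulAction.orbit K y ⊆ (T : Set V) := by
      rintro _ ⟨s, rfl⟩
      have hs : (s : L) • T = T := s.2
      have h1 : (s : L) • y ∈ (s : L) • T := Finset.smul_mem_smul_finset hy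
      rw [hs] at h1
      exact h1
    have hle : Nat.card (MulAction.orbit K y) ≤ 3 := by
      have h1 := Set.ncard_le_ncard hsub (Set.toFinite _)
      rw [Set.ncard_coe_finset, hT3] at h1
      exact h1
    have hpos : 0 < Nat.card (MulAction.orbit K y) := by
      have : Nonempty (MulAction.orbit K y) := ⟨⟨y, MulAction.mem_orbit_self y⟩⟩
      exact Nat.card_pos
    have e7 : 3 ^ (k + 1 - c) ∣ Nat.card (MulAction.orbit K y) := by
      rw [← e5, hc, show k + 1 = (k + 1 - c) + c by omega, pow_add] at e4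
      exact Nat.dvd_of_mul_dvd_mul_right (by positivity) e4
    have e8 := Nat.le_of_dvd hpos e7
    have hck' : c = k := by
      by_contra hne
      have h2 : 3 ^ 2 ≤ 3 ^ (k + 1 - c) := Nat.pow_le_pow_right (by norm_num) (by omega)
      omega
    have e9 : Nat.card (MulAction.orbit K y) = 3 := by
      rw [hck', show k + 1 - k = 1 by omega, pow_one] at e8
      omega
    have e10 : MulAction.orbit K y = (T : Set V) := by
      apply Set.eq_of_subset_of_ncard_le hsub _ (Set.toFinite _)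
      rw [Set.ncard_coe_finset, hT3]
      exact e9.ge
    refine ⟨?_, ?_, ?_⟩
    · intro y' hy'
      have : y' ∈ MulAction.orbit K y := by
        rw [e10]; exact hy'
      obtain ⟨s, hs⟩ := this
      exact ⟨(s : L), s.2, hs⟩
    · intro l hl
      have hle2 : (MulAction.stabilizer K y).map K.subtype ≤ MulAction.stabilizer L y := by
        rintro _ ⟨q, hq, rfl⟩
        exact hq
      have heq : (MulAction.stabilizer K y).map K.subtype = MulAction.stabilizer L y := by
        apply Subgroup.eq_of_le_of_card_ge hle2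
        rw [Subgroup.card_map_of_injective (Subgroup.subtype_injective _), hk, hc, hck']
      have hmem : l ∈ (MulAction.stabilizer K y).map K.subtype := by
        rw [heq]; exact hl
      obtain ⟨q, _, rfl⟩ := hmem
      exact q.2
    · rw [e9, hc, hck'] at e5
      rw [← e5, ← e1, hk] at e2
      have h1 : Nat.card (MulAction.orbit L y) * 3 ^ k = (3 * Nat.card (MulAction.orbit L T)) * 3 ^ k := by
        rw [← e2]; ring
      exact Nat.eq_of_mul_eq_mul_right (by positivity) h1
  obtain ⟨x, hx⟩ : T.Nonempty := by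
    rw [← Finset.card_pos, hT3]; norm_num
  have hfin : (MulAction.orbit L T).Finite := Set.toFinite _
  set O : Finset (Finset V) := hfin.toFinset with hO
  have hOmem : ∀ T', T' ∈ O ↔ ∃ p : L, p • T = T' := by
    intro T'
    rw [hO, Set.Finite.mem_toFinset]
    exact Iff.rfl
  refine ⟨O, x, hT.2 hx, ?_, ?_, ?_, ?_⟩
  · intro T' hT'
    obtain ⟨p, rfl⟩ := (hOmem T').1 hT'
    exact hG (p : G) T hT.1
  · intro T1 hT1 T2 hT2 hne
    by_contra hd
    simp only [Function.onFun, id] at hd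
    rw [Finset.not_disjoint_iff] at hd
    obtain ⟨z, hz1, hz2⟩ := hd
    obtain ⟨l, rfl⟩ := (hOmem _).1 hT1
    obtain ⟨l', rfl⟩ := (hOmem _).1 hT2
    obtain ⟨y, hy, hyz⟩ := Finset.mem_smul_finset.1 hz1
    obtain ⟨y', hy', hyz'⟩ := Finset.mem_smul_finset.1 hz2
    obtain ⟨s, hsT, hsy⟩ := (key y hy).1 y' hy'
    apply hne
    have h1 : ((l' * s)⁻¹ * l) • y = y := by
      rw [mul_smul, inv_smul_eq_iff, mul_smul, hsy, hyz, hyz']
    have h2 := (key y hy).2.1 _ h1
    rw [mul_smul, inv_smul_eq_iff, mul_smul, hsT] at h2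
    exact h2
  · intro z
    rw [Finset.mem_biUnion]
    constructor
    · rintro ⟨T', hT', hz⟩
      obtain ⟨l, rfl⟩ := (hOmem _).1 hT'
      obtain ⟨y, hy, rfl⟩ := Finset.mem_smul_finset.1 hz
      obtain ⟨s, _, hsy⟩ := (key x hx).1 y hy
      exact ⟨l * s, by rw [mul_smul, hsy]⟩
    · rintro ⟨l, rfl⟩
      exact ⟨l • T, (hOmem _).2 ⟨l, rfl⟩, Finset.smul_mem_smul_finset hx⟩
  · rw [(key x hx).2.2, pow_succ, mul_comm (3 ^ a) 3]
    intro h
    exact hnd (Nat.dvd_of_mul_dvd_mul_left (by norm_num) h)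

/-- The number of triples through `x` which have exactly two points in the `G`-orbit of `x`. -/
noncomputable def twoCount (G : Type*) [Group G] [MulAction G V] (S : Finset (Finset V)) (x : V) : ℕ :=
  {T : Finset V | T ∈ S ∧ x ∈ T ∧ {y : V | y ∈ T ∧ y ∈ MulAction.orbit G x}.ncard = 2}.ncard

/-- The condition on the `G`-orbit of `x`: some subgroup `L` of `G` such that for all `y` in this orbit `L_y` is a
3-group, every power of 3 which divides the length of the `G`-orbit divides the length of the `L`-orbit of `y`, and,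
if the converse holds too, `G_y` preserves the `L`-orbit of `y`. -/
def Local3 (G : Type*) [Group G] [MulAction G V] (x : V) : Prop :=
  ∃ L : Subgroup G, ∀ y ∈ MulAction.orbit G x,
    (∃ k, Nat.card (MulAction.stabilizer L y) = 3 ^ k) ∧
    (∀ k, 3 ^ k ∣ Nat.card (MulAction.orbit G x) → 3 ^ k ∣ Nat.card (MulAction.orbit L y)) ∧
    ((∀ k, 3 ^ k ∣ Nat.card (MulAction.orbit L y) → 3 ^ k ∣ Nat.card (MulAction.orbit G x)) →
      ∀ g : G, g • y = y → ∀ z ∈ MulAction.orbit L y, g • z ∈ MulAction.orbit L y)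

theorem orbit_partition {S : Finset (Finset V)} (hS : IsSTS S) (hG : ∀ g : G, ∀ T ∈ S, g • T ∈ S) (x : V)
    (hx3 : 3 ∣ Nat.card (MulAction.orbit G x)) (ht : twoCount G S x % 3 ≠ 2) (hL : Local3 G x) :
    ∃ M ⊆ S, (M : Set (Finset V)).PairwiseDisjoint id ∧
      ∀ z, z ∈ M.biUnion id ↔ z ∈ MulAction.orbit G x := by
  classical
  obtain ⟨L, hL⟩ := hL
  set X : Finset V := Finset.univ.filter (fun y => y ∈ MulAction.orbit G x) with hXdef
  have hXmem : ∀ y, y ∈ X ↔ y ∈ MulAction.orbit G x := by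
    intro y
    rw [hXdef, Finset.mem_filter]
    exact ⟨fun h => h.2, fun h => ⟨Finset.mem_univ _, h⟩⟩
  have hXcard : X.card = Nat.card (MulAction.orbit G x) := by
    rw [← Nat.card_eq_finsetCard]
    apply Nat.card_congr
    exact Equiv.subtypeEquivRight hXmem
  have hXinv : ∀ g : G, ∀ y ∈ X, g • y ∈ X := by
    intro g y hy
    rw [hXmem] at hy ⊢
    obtain ⟨h, rfl⟩ := hy
    exact ⟨g * h, mul_smul _ _ _⟩
  have htc : twoCount G S x = (S.filter fun T => x ∈ T ∧ (T ∩ X).card = 2).card := by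
    unfold twoCount
    rw [← Set.ncard_coe_finset]
    congr 1
    ext T
    rw [Set.mem_setOf_eq, Finset.mem_coe, Finset.mem_filter]
    have : {y : V | y ∈ T ∧ y ∈ MulAction.orbit G x} = ((T ∩ X : Finset V) : Set V) := by
      ext y
      rw [Set.mem_setOf_eq, Finset.mem_coe, Finset.mem_inter, hXmem]
    rw [this, Set.ncard_coe_finset]
  have c1 := count_in hS X
  have c2 := count_two hG X hXinv x (by
    intro y hy
    exact (hXmem y).1 hy)
  rw [← htc] at c2
  set t := twoCount G S x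
  set m := X.card
  rw [← hXcard] at hx3
  have hpos : 0 < m := Finset.card_pos.2 ⟨x, (hXmem x).2 (MulAction.mem_orbit_self x)⟩
  obtain ⟨a, r, hr, hmr⟩ := Nat.exists_eq_pow_mul_and_not_dvd (n := m) (by omega) 3 (by norm_num)
  set b := (S.filter fun T => T ⊆ X).card with hb
  obtain ⟨c, hc⟩ : ∃ c, m = 1 + t + c := by
    refine ⟨m - 1 - t, ?_⟩
    have : 1 + t ≤ m := by
      by_contra hlt
      push Not at hlt
      have : m * m < m * (1 + t) := (Nat.mul_lt_mul_left hpos).2 hlt
      have e : m * (1 + t) = m * t + m := by ring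
      omega
    omega
  have h6 : 6 * b = m * c := by
    have e : m * m = m * t + m + m * c := by
      conv_lhs => rw [show m * m = m * (1 + t + c) from by rw [← hc]]
      ring
    omega
  have hc3 : ¬ 3 ∣ c := by
    intro h
    omega
  have hnd : ¬ 3 ^ a ∣ b := by
    rintro ⟨s, hs⟩
    rw [hs, hmr] at h6
    have h7 : 3 ^ a * (r * c) = 3 ^ a * (3 * (2 * s)) := by
      rw [← mul_assoc, ← h6]; ring
    have h8 := Nat.eq_of_mul_eq_mul_left (by positivity) h7
    have h9 : 3 ∣ r * c := ⟨2 * s, h8⟩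
    rcases (Nat.Prime.dvd_mul Nat.prime_three).1 h9 with h | h
    · exact hr h
    · exact hc3 h
  obtain ⟨O, x', hx'X, hOS, hOd, hOx, hOa⟩ := exists_block_orbit_L hS.three hG hXinv L a
    (fun y hy => (hL y ((hXmem y).1 hy)).1)
    (fun y hy => (hL y ((hXmem y).1 hy)).2.1 a (by rw [← hXcard, hmr]; exact dvd_mul_right _ _)) hnd
  have hx' := (hXmem x').1 hx'X
  have hpow : ∀ k, 3 ^ k ∣ Nat.card (MulAction.orbit L x') → 3 ^ k ∣ Nat.card (MulAction.orbit G x) := by
    intro k hk
    have hka : k ≤ a := by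
      by_contra hlt
      exact hOa ((pow_dvd_pow 3 (by omega)).trans hk)
    rw [← hXcard, hmr]
    exact (pow_dvd_pow 3 hka).trans (dvd_mul_right _ _)
  obtain ⟨M, hMS, hMd, hMU⟩ := exists_partition' hG (X := X) L O x' (by
      intro y hy
      obtain ⟨g, hg⟩ := (hXmem y).1 hy
      obtain ⟨h, hh⟩ := hx'
      refine ⟨g * h⁻¹, ?_⟩
      rw [mul_smul, ← hh]
      change g • h⁻¹ • h • x = y
      rw [inv_smul_smul]
      exact hg) (by
      intro g hg p
      obtain ⟨q, hq⟩ := (hL x' hx').2.2 hpow g hg (p • x') ⟨p, rfl⟩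
      exact ⟨q, hq.symm⟩) hOS hOd hOx _ X rfl (Finset.Subset.refl _) (by
      intro g y _ _ z hz
      obtain ⟨p, rfl⟩ := (hOx z).1 hz
      exact hXinv g _ (hXinv (p : G) _ hx'X))
  exact ⟨M, hMS, hMd, fun z => by rw [hMU]; exact hXmem z⟩

end Pool.Agent.H83.STSm
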