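import Mathlib
import Pool.Agent.H83.STS.Loc

/-!
Assembly of the orbitwise theorem, and the cases in which its hypotheses hold.
-/

set_option autoImplicit false

namespace Pool.Agent.H83.STSm

open Finset Pointwise

variable {V : Type*} [Fintype V] [DecidableEq V] {G : Type*} [Group G] [Finite G] [MulAction G V]

theorem orbits_partition {S : Finset (Finset V)} (hS : IsSTS S) (hG : ∀ g : G, ∀ T ∈ S, g • T ∈ S)
    (W : Finset V)
    (h : ∀ x, x ∉ W → 3 ∣ Nat.card (MulAction.orbit G x) ∧ twoCount G S x % 3 ≠ 2 ∧ Local3 G x) :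
    ∀ (k : ℕ) (Z : Finset V), Z.card = k → Z ⊆ Wᶜ → (∀ g : G, ∀ x ∈ Z, g • x ∈ Z) →
      ∃ M ⊆ S, (M : Set (Finset V)).PairwiseDisjoint id ∧ M.biUnion id = Z ∧
        ∀ T ∈ M, ∀ y ∈ T, ∀ z ∈ T, ∃ g : G, g • y = z := by
  classical
  intro k
  induction k using Nat.strong_induction_on with
  | _ k ih =>
    intro Z hk hZW hZG
    rcases Z.eq_empty_or_nonempty with rfl | ⟨x, hx⟩
    · exact ⟨∅, by simp, by simp, by simp, by simp⟩
    · obtain ⟨h1, h2, h3⟩ := h x (Finset.mem_compl.1 (hZW hx))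
      obtain ⟨N, hNS, hNd, hNU⟩ := orbit_partition hS hG x h1 h2 h3
      have hsub : N.biUnion id ⊆ Z := by
        intro z hz
        obtain ⟨g, rfl⟩ := (hNU z).1 hz
        exact hZG g x hx
      have hxN : x ∈ N.biUnion id := (hNU x).2 (MulAction.mem_orbit_self x)
      have hlt : (Z \ N.biUnion id).card < k := by
        rw [← hk]
        apply Finset.card_lt_card
        refine ⟨Finset.sdiff_subset, fun h => ?_⟩
        exact (Finset.mem_sdiff.1 (h hx)).2 hxN
      obtain ⟨M, hMS, hMd, hMU, hMo⟩ := ih _ hlt (Z \ N.biUnion id) rfl (Finset.sdiff_subset.trans hZW) (by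
        intro g y hy
        rw [Finset.mem_sdiff] at hy ⊢
        refine ⟨hZG g y hy.1, fun hcon => hy.2 ?_⟩
        obtain ⟨g', hg'⟩ := (hNU _).1 hcon
        refine (hNU _).2 ⟨g⁻¹ * g', ?_⟩
        change (g⁻¹ * g') • x = y
        have hg'' : g' • x = g • y := hg'
        rw [mul_smul, hg'', inv_smul_smul])
      have hcross : ∀ T ∈ M, ∀ T' ∈ N, Disjoint T T' := by
        intro T hT T' hT'
        rw [Finset.disjoint_left]
        intro z hz hz'
        have h1 : z ∈ M.biUnion id := Finset.mem_biUnion.2 ⟨T, hT, hz⟩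
        rw [hMU] at h1
        exact (Finset.mem_sdiff.1 h1).2 (Finset.mem_biUnion.2 ⟨T', hT', hz'⟩)
      refine ⟨M ∪ N, Finset.union_subset hMS hNS, ?_, ?_, ?_⟩
      · intro T hT T' hT' hne
        rw [Finset.mem_coe] at hT hT'
        rcases Finset.mem_union.1 hT with h | h <;> rcases Finset.mem_union.1 hT' with h' | h'
        · exact hMd h h' hne
        · exact hcross T h T' h'
        · exact (hcross T' h' T h).symm
        · exact hNd h h' hne
      · rw [Finset.union_biUnion, hMU, Finset.sdiff_union_of_subset hsub]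
      · intro T hT y hy z hz
        rcases Finset.mem_union.1 hT with h | h
        · exact hMo T h y hy z hz
        · obtain ⟨g, hg⟩ := (hNU y).1 (Finset.mem_biUnion.2 ⟨T, h, hy⟩)
          obtain ⟨g', hg'⟩ := (hNU z).1 (Finset.mem_biUnion.2 ⟨T, h, hz⟩)
          have hgg : g • x = y := hg
          have hgg' : g' • x = z := hg'
          refine ⟨g' * g⁻¹, ?_⟩
          rw [mul_smul, ← hgg, inv_smul_smul, hgg']

/-- A matching inside the complement of a set which is partitioned into triples extends. -/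
theorem extend {S : Finset (Finset V)} (hS : IsSTS S) {W : Finset V} (M : Finset (Finset V)) (hMS : M ⊆ S)
    (hMd : (M : Set (Finset V)).PairwiseDisjoint id) (hMU : M.biUnion id = Wᶜ)
    (e : ℕ) (N : Finset (Finset V)) (hNS : N ⊆ S) (hNW : ∀ T ∈ N, T ⊆ W)
    (hNd : (N : Set (Finset V)).PairwiseDisjoint id) (hN : W.card ≤ 3 * N.card + e) :
    ∃ M ⊆ S, (M : Set (Finset V)).PairwiseDisjoint id ∧ Fintype.card V ≤ 3 * M.card + e := by
  classical
  have hM3 : (Wᶜ).card = 3 * M.card := by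
    rw [← hMU, Finset.card_biUnion (fun T hT T' hT' hne => hMd hT hT' hne)]
    have h3 : ∑ T ∈ M, (id T).card = ∑ _T ∈ M, 3 := Finset.sum_congr rfl fun T hT => hS.three T (hMS hT)
    rw [h3]
    simp [mul_comm]
  have hcross : ∀ T ∈ M, ∀ T' ∈ N, Disjoint T T' := by
    intro T hT T' hT'
    rw [Finset.disjoint_left]
    intro z hz hz'
    have h1 : z ∈ M.biUnion id := Finset.mem_biUnion.2 ⟨T, hT, hz⟩
    rw [hMU, Finset.mem_compl] at h1
    exact h1 (hNW T' hT' hz')
  have hdis : Disjoint M N := by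
    rw [Finset.disjoint_left]
    intro T hT hT'
    have h1 := hcross T hT T hT'
    rw [disjoint_self] at h1
    have h2 := hS.three T (hMS hT)
    rw [h1] at h2
    simp at h2
  refine ⟨M ∪ N, Finset.union_subset hMS hNS, ?_, ?_⟩
  · intro T hT T' hT' hne
    rw [Finset.mem_coe] at hT hT'
    rcases Finset.mem_union.1 hT with h | h <;> rcases Finset.mem_union.1 hT' with h' | h'
    · exact hMd h h' hne
    · exact hcross T h T' h'
    · exact (hcross T' h' T h).symm
    · exact hNd h h' hne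
  · rw [Finset.card_union_of_disjoint hdis, ← Finset.card_add_card_compl W]
    omega

omit [Fintype V] [DecidableEq V] [Finite G] in
theorem orbit_eq {x y : V} (hy : y ∈ MulAction.orbit G x) : MulAction.orbit G y = MulAction.orbit G x :=
  MulAction.orbit_eq_iff.2 hy

/-- Three ways to satisfy the local condition. -/
theorem local3_of {x : V}
    (h : (∃ P : Sylow 3 G, ∀ y ∈ MulAction.orbit G x, ∀ g : G, g • y = y →
        g ∈ Subgroup.normalizer ((P : Subgroup G) : Set G)) ∨
      (∀ y ∈ MulAction.orbit G x, ∃ k, Nat.card (MulAction.stabilizer G y) = 3 ^ k) ∨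
      (∃ k, Nat.card (MulAction.orbit G x) = 3 ^ k)) : Local3 G x := by
  classical
  have : Fact (Nat.Prime 3) := ⟨Nat.prime_three⟩
  rcases h with ⟨P, hP⟩ | h | ⟨k, hk⟩
  · refine ⟨(P : Subgroup G), fun y hy => ⟨IsPGroup.iff_card.1 (P.isPGroup'.to_subgroup _), ?_, ?_⟩⟩
    · intro k hk
      apply pow_dvd_orbit P y k
      rw [orbit_eq hy]
      exact hk
    · rintro - g hg _ ⟨p, rfl⟩
      have hn := (Subgroup.mem_normalizer_iff.1 (hP y hy g hg) (p : G)).1 p.2
      refine ⟨⟨_, hn⟩, ?_⟩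
      change (g * (p : G) * g⁻¹) • y = g • (p : G) • y
      have hg' : g⁻¹ • y = y := by
        rw [inv_smul_eq_iff]; exact hg.symm
      rw [mul_smul, mul_smul, hg']
  · refine ⟨⊤, fun y hy => ⟨?_, ?_, ?_⟩⟩
    · obtain ⟨k, hk⟩ := h y hy
      have h1 := card_stab_dvd (⊤ : Subgroup G) y
      rw [hk] at h1
      obtain ⟨c, _, hc⟩ := (Nat.dvd_prime_pow Nat.prime_three).1 h1
      exact ⟨c, hc⟩
    · intro k hk
      have : MulAction.orbit (⊤ : Subgroup G) y = MulAction.orbit G y := by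
        ext z
        constructor
        · rintro ⟨p, rfl⟩
          exact ⟨(p : G), rfl⟩
        · rintro ⟨p, rfl⟩
          exact ⟨⟨p, Subgroup.mem_top p⟩, rfl⟩
      rw [this, orbit_eq hy]
      exact hk
    · rintro - g hg _ ⟨p, rfl⟩
      exact ⟨⟨g * (p : G), Subgroup.mem_top _⟩, mul_smul _ _ _⟩
  · obtain ⟨P⟩ : Nonempty (Sylow 3 G) := inferInstance
    have hd : ∀ y ∈ MulAction.orbit G x, ∀ j, 3 ^ j ∣ Nat.card (MulAction.orbit G x) →
        3 ^ j ∣ Nat.card (MulAction.orbit (P : Subgroup G) y) := by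
      intro y hy j hj
      apply pow_dvd_orbit P y j
      rw [orbit_eq hy]
      exact hj
    refine ⟨(P : Subgroup G), fun y hy => ⟨IsPGroup.iff_card.1 (P.isPGroup'.to_subgroup _), hd y hy, ?_⟩⟩
    intro _ g hg z hz
    have hsub : MulAction.orbit (P : Subgroup G) y ⊆ MulAction.orbit G y := by
      rintro _ ⟨p, rfl⟩
      exact ⟨(p : G), rfl⟩
    have hpos : 0 < Nat.card (MulAction.orbit (P : Subgroup G) y) := by
      have : Nonempty (MulAction.orbit (P : Subgroup G) y) := ⟨⟨y, MulAction.mem_orbit_self y⟩⟩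
      exact Nat.card_pos
    have h1 := Nat.le_of_dvd hpos (hd y hy k (by rw [hk]))
    have h2 : MulAction.orbit (P : Subgroup G) y = MulAction.orbit G y := by
      apply Set.eq_of_subset_of_ncard_le hsub _ (Set.toFinite _)
      change Nat.card (MulAction.orbit G y) ≤ Nat.card (MulAction.orbit (P : Subgroup G) y)
      rw [orbit_eq hy, hk]
      exact h1
    rw [h2] at hz ⊢
    obtain ⟨g', rfl⟩ := hz
    exact ⟨g * g', mul_smul _ _ _⟩

omit [Finite G] in
/-- The arithmetic conditions hold outside a subsystem on whose complement the group is transitive. -/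
theorem arith_of {S : Finset (Finset V)} (hS : IsSTS S) (hG : ∀ g : G, ∀ T ∈ S, g • T ∈ S)
    {W : Finset V} (hW : Subsystem S W) (hGW : ∀ g : G, ∀ x ∈ W, g • x ∈ W)
    (hmod : Fintype.card V % 3 = W.card % 3)
    (htr : ∀ x, x ∉ W → ∀ y, y ∉ W → ∃ g : G, g • x = y) (x : V) (hx : x ∉ W) :
    3 ∣ Nat.card (MulAction.orbit G x) ∧ twoCount G S x = W.card ∧ twoCount G S x % 3 ≠ 2 := by
  classical
  have hGW' : ∀ g : G, ∀ x, x ∉ W → g • x ∉ W := by
    intro g x hx h
    apply hx
    have := hGW g⁻¹ _ h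
    rwa [inv_smul_smul] at this
  have horb : ∀ y, y ∈ MulAction.orbit G x ↔ y ∈ (Wᶜ : Finset V) := by
    intro y
    rw [Finset.mem_compl]
    constructor
    · rintro ⟨g, rfl⟩
      exact hGW' g x hx
    · intro hy
      exact htr x hx y hy
  have hcardX : Nat.card (MulAction.orbit G x) = (Wᶜ).card := by
    rw [← Nat.card_eq_finsetCard]
    exact Nat.card_congr (Equiv.subtypeEquivRight horb)
  have hcard : W.card + (Wᶜ).card = Fintype.card V := Finset.card_add_card_compl W
  have htc : twoCount G S x = (S.filter fun T => x ∈ T ∧ (T ∩ Wᶜ).card = 2).card := by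
    unfold twoCount
    rw [← Set.ncard_coe_finset]
    congr 1
    ext T
    rw [Set.mem_setOf_eq, Finset.mem_coe, Finset.mem_filter]
    have : {y : V | y ∈ T ∧ y ∈ MulAction.orbit G x} = ((T ∩ Wᶜ : Finset V) : Set V) := by
      ext y
      rw [Set.mem_setOf_eq, Finset.mem_coe, Finset.mem_inter, horb]
    rw [this, Set.ncard_coe_finset]
  have hpos : 0 < (Wᶜ).card := Finset.card_pos.2 ⟨x, Finset.mem_compl.2 hx⟩
  have c1 := count_outside hS hW
  have c2 := count_in hS (Wᶜ)
  have c3 := count_two hG (Wᶜ) (by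
    intro g y hy
    exact Finset.mem_compl.2 (hGW' g y (Finset.mem_compl.1 hy))) x (by
    intro y hy
    exact htr x hx y (Finset.mem_compl.1 hy))
  rw [← htc] at c3
  have ht : twoCount G S x = W.card := by
    have h1 : (Wᶜ).card * twoCount G S x = (Wᶜ).card * W.card := by
      rw [mul_comm (Wᶜ).card W.card]
      omega
    exact Nat.eq_of_mul_eq_mul_left hpos h1
  have hemp : Subsystem S (∅ : Finset V) := by
    intro T _ x _ y _ _ hx
    exact absurd hx (Finset.notMem_empty x)
  have c4 := count_outside hS hemp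
  rw [Finset.compl_empty, Finset.card_univ, Finset.card_empty] at c4
  have hn2 : Fintype.card V % 3 ≠ 2 := by
    intro h
    set n := Fintype.card V
    have h3 : (n * n) % 3 = 1 := by rw [Nat.mul_mod, h]
    omega
  refine ⟨?_, ht, ?_⟩
  · rw [hcardX]; omega
  · rw [ht]; omega

theorem perfect {S : Finset (Finset V)} (hS : IsSTS S) (hG : ∀ g : G, ∀ T ∈ S, g • T ∈ S)
    (h3 : 3 ∣ Fintype.card V) (htr : ∀ x y : V, ∃ g : G, g • x = y)
    (h : Group.IsNilpotent G ∨ (∀ x : V, ∃ k, Nat.card (MulAction.stabilizer G x) = 3 ^ k) ∨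
      ∃ k, Fintype.card V = 3 ^ k) :
    ∃ M ⊆ S, (M : Set (Finset V)).PairwiseDisjoint id ∧ M.biUnion id = Finset.univ := by
  classical
  have hemp : Subsystem S (∅ : Finset V) := by
    intro T _ x _ y _ _ hx
    exact absurd hx (Finset.notMem_empty x)
  have hinv : ∀ g : G, ∀ x ∈ (∅ : Finset V), g • x ∈ (∅ : Finset V) := by
    intro g x hx
    exact absurd hx (Finset.notMem_empty x)
  have horb : ∀ x : V, MulAction.orbit G x = Set.univ := by
    intro x
    ext y
    exact ⟨fun _ => Set.mem_univ _, fun _ => htr x y⟩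
  have hloc : ∀ x : V, Local3 G x := by
    intro x
    rcases h with h | h | ⟨k, hk⟩
    · obtain ⟨P⟩ : Nonempty (Sylow 3 G) := inferInstance
      refine local3_of (Or.inl ⟨P, fun y _ g _ => ?_⟩)
      have hn : (P : Subgroup G).Normal := by
        have := ((Group.isNilpotent_of_finite_tfae (G := G)).out 0 3).1 h
        exact this 3 ⟨Nat.prime_three⟩ P
      rw [Subgroup.normalizer_eq_top]
      exact Subgroup.mem_top g
    · exact local3_of (Or.inr (Or.inl fun y _ => h y))
    · refine local3_of (Or.inr (Or.inr ⟨k, ?_⟩))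
      rw [horb x, ← hk, ← Nat.card_eq_fintype_card]
      exact Nat.card_congr (Equiv.Set.univ V)
  obtain ⟨M, hMS, hMd, hMU, _⟩ := orbits_partition hS hG ∅ (by
    intro x hx
    have h1 := arith_of hS hG hemp hinv (by rw [Finset.card_empty]; omega) (fun x _ y _ => htr x y) x hx
    exact ⟨h1.1, h1.2.2, hloc x⟩) _ Finset.univ rfl (by rw [Finset.compl_empty]) (by
    intro g x _
    exact Finset.mem_univ _)
  exact ⟨M, hMS, hMd, hMU⟩

theorem orbit_matchings {S : Finset (Finset V)} (hS : IsSTS S) (hG : ∀ g : G, ∀ T ∈ S, g • T ∈ S)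
    (W : Finset V) (hGW : ∀ g : G, ∀ x ∈ W, g • x ∈ W)
    (h : ∀ x, x ∉ W → 3 ∣ Nat.card (MulAction.orbit G x) ∧ twoCount G S x % 3 ≠ 2 ∧ Local3 G x) :
    (∃ M ⊆ S, (M : Set (Finset V)).PairwiseDisjoint id ∧ M.biUnion id = Wᶜ ∧
        ∀ T ∈ M, ∀ y ∈ T, ∀ z ∈ T, ∃ g : G, g • y = z) ∧
      ∀ (e : ℕ) (N : Finset (Finset V)), N ⊆ S → (∀ T ∈ N, T ⊆ W) →
        (N : Set (Finset V)).PairwiseDisjoint id → W.card ≤ 3 * N.card + e →
        ∃ M ⊆ S, (M : Set (Finset V)).PairwiseDisjoint id ∧ Fintype.card V ≤ 3 * M.card + e := by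
  have hGW' : ∀ g : G, ∀ x ∈ Wᶜ, g • x ∈ Wᶜ := by
    intro g x hx
    rw [Finset.mem_compl] at hx ⊢
    intro h
    apply hx
    have := hGW g⁻¹ _ h
    rwa [inv_smul_smul] at this
  obtain ⟨M, hMS, hMd, hMU, hMo⟩ := orbits_partition hS hG W h _ (Wᶜ) rfl (Finset.Subset.refl _) hGW'
  exact ⟨⟨M, hMS, hMd, hMU, hMo⟩, fun e N hNS hNW hNd hN => extend hS M hMS hMd hMU e N hNS hNW hNd hN⟩

end Pool.Agent.H83.STSm
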